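import Pool.Agent.W424.KI.Stm

/-!
# Task DETP (project KI, helper424): probabilities of the landing events
-/

set_option autoImplicit false

namespace Pool.Agent.W790.KI
open H974 H906.Cyl
open Pool.Agent.H160R2.ML (nm)
open Pool.Agent.H160R2.MU (Cel csq cpos EP inSq)
open Pool.Agent.W801.OU
open Pool.Agent.W808.KZ (vp fp AdmZ OutF LandZ nrp ZCr mrg)
open Pool.Agent.W424.KI

namespace TDETP

theorem mem_box_iff {m : ℕ} {e : Edg} : e ∈ boxE m ↔ nm (src e) ≤ m ∧ nm (tgt e) ≤ m := by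
  obtain ⟨x, y, _ | _⟩ := e
  · simp only [nm, src, tgt, Bool.false_eq_true, if_false, max_le_iff, abs_le]
    unfold boxE
    rw [mem_RE_false]
    omega
  · simp only [nm, src, tgt, if_true, max_le_iff, abs_le]
    unfold boxE
    rw [mem_RE_true]
    omega

theorem LZ_congr {Z : Set ℤ} {B G G' : Set Edg} (h : ∀ e ∈ B, (e ∈ G ↔ e ∈ G')) :
    LZ Z B G = LZ Z B G' := by
  funext x y
  apply propext
  constructor
  · rintro ⟨e, he, h1, h2 | h2⟩
    · exact ⟨e, he, h1, Or.inl ⟨(h e he).1 h2.1, h2.2⟩⟩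
    · exact ⟨e, he, h1, Or.inr ⟨fun h3 => h2.1 ((h e he).2 h3), h2.2⟩⟩
  · rintro ⟨e, he, h1, h2 | h2⟩
    · exact ⟨e, he, h1, Or.inl ⟨(h e he).2 h2.1, h2.2⟩⟩
    · exact ⟨e, he, h1, Or.inr ⟨fun h3 => h2.1 ((h e he).1 h3), h2.2⟩⟩

theorem RZ_congr {Z : Set ℤ} {B G G' : Set Edg} (h : ∀ e ∈ B, (e ∈ G ↔ e ∈ G')) :
    RZ Z B G = RZ Z B G' := by
  unfold RZ
  rw [LZ_congr h]

theorem LandZ_congr {N r : ℕ} {C : Cel} {G G' : Set Edg}
    (h : ∀ e ∈ bxz (N * r : ℕ), (e ∈ G ↔ e ∈ G')) : LandZ N r C G ↔ LandZ N r C G' := by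
  unfold LandZ
  rw [RZ_congr h]

theorem Crx_congr {d R : ℤ} {G G' : Set Edg} (h : ∀ e ∈ AnS d R, (e ∈ G ↔ e ∈ G')) :
    Crx d R G = Crx d R G' := by
  funext x
  unfold Crx
  rw [RZ_congr h]

theorem LandO_congr {L r : ℕ} {C : Cel} {R : ℕ} {G G' : Set Edg}
    (h : ∀ e ∈ AnS (L * r : ℕ) R, (e ∈ G ↔ e ∈ G')) : LandO L r C R G ↔ LandO L r C R G' := by
  unfold LandO
  rw [Crx_congr h]

end TDETP

open TDETP

theorem t_DETP (hDET : S_DET) : S_DETP := by
  classical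
  intro N L r Ci Co R hG
  have hN := hG.hN
  have hL := hG.hL
  have hr := hG.hr
  have hNL : N * r < L * r := Nat.mul_lt_mul_of_pos_right (by omega) (by omega)
  have hR := hG.hR
  have hNR : N * r ≤ R := by omega
  let S : Finset Edg := boxE (N * r)
  let T : Finset Edg := (boxE R).filter (fun e => e ∈ AnS (L * r : ℕ) R)
  have hS : S ⊆ boxE R := by
    intro e he
    rw [mem_box_iff] at he ⊢
    have h1 : ((N * r : ℕ) : ℤ) ≤ R := by exact_mod_cast hNR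
    exact ⟨he.1.trans h1, he.2.trans h1⟩
  have hT : T ⊆ boxE R := Finset.filter_subset _ _
  have hd : Disjoint S T := by
    rw [Finset.disjoint_left]
    intro e he he'
    have h1 : nm (src e) ≤ (N * r : ℕ) := (mem_box_iff.1 he).1
    have h2 : ((L * r : ℕ) : ℤ) ≤ nm (src e) := (Finset.mem_filter.1 he').2.1.1
    have h3 : ((N * r : ℕ) : ℤ) < (L * r : ℕ) := by exact_mod_cast hNL
    exact absurd (h2.trans h1) (not_le.2 h3)
  have hA : ∀ F : Finset Edg, F ⊆ boxE R → (LandZ N r Ci (↑F : Set Edg) ↔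
      LandZ N r Ci (↑(F ∩ S) : Set Edg)) := by
    intro F _
    apply LandZ_congr
    intro e he
    rw [Finset.mem_coe, Finset.mem_coe, Finset.mem_inter]
    exact ⟨fun h => ⟨h, mem_box_iff.2 he⟩, fun h => h.1⟩
  have hB : ∀ F : Finset Edg, F ⊆ boxE R → (LandO L r Co R (↑F : Set Edg) ↔
      LandO L r Co R (↑(F ∩ T) : Set Edg)) := by
    intro F _
    apply LandO_congr
    intro e he
    rw [Finset.mem_coe, Finset.mem_coe, Finset.mem_inter]
    refine ⟨fun h => ⟨h, Finset.mem_filter.2 ⟨mem_box_iff.2 he.2, he⟩⟩, fun h => h.1⟩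
  have h1 := Pr_local (p := fun _ : Edg => (1 / 2 : ℝ)) hS hA
  have h2 := Pr_indep (p := fun _ : Edg => (1 / 2 : ℝ)) hS hT hd hA hB
  show Pr (fun _ : Edg => (1 / 2 : ℝ)) S (fun F => LandZ N r Ci (↑F : Set Edg)) * _ ≤ _
  rw [← h1]
  unfold PF
  rw [← h2]
  apply Pr_mono (okq (q := 1/2) (by norm_num) (by norm_num))
  intro F hF hL
  exact hDET N L r Ci Co R hG F hF hL.1 hL.2

end Pool.Agent.W790.KI
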